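import Pool.Agent.G9.Stmts

set_option autoImplicit false

/-!
# Squad GNI (MP_094b6b_co), row NRM: the norm bound in all cases
-/

namespace Pool.Agent.G9.H19

open Finset

theorem nrm (hNRD : NrdStmt) (hNRB : NrbStmt) : NrmStmt := by
  intro F _ _ _ _ σ ψ h1 h2 h3 h4 β γ δ ε h0 f g
  by_cases hδ : δ = 0
  · by_cases hε : ε = 0
    · have hβ : β ≠ 0 ∨ γ ≠ 0 := by
        by_contra h
        rw [not_or, not_not, not_not] at h
        exact h0 ⟨h.1, h.2, hδ, hε⟩
      have key := hNRB F σ ψ h1 h2 h3 β γ hβ f g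
      have e : (∑ x, ∑ y, ψ (β * (σ x * y) + γ * (x * σ y) + δ * (σ x * y ^ 2) +
          ε * (x ^ 2 * σ y)) * (f x * g y)) =
          ∑ x, ∑ y, ψ (β * (σ x * y) + γ * (x * σ y)) * (f x * g y) := by
        refine Finset.sum_congr rfl fun x _ => Finset.sum_congr rfl fun y _ => ?_
        rw [hδ, hε, zero_mul, zero_mul, add_zero, add_zero]
      rw [e]
      exact key
    · have key := hNRD F σ ψ h1 h2 h3 h4 γ β ε δ hε g f
      have e : (∑ x, ∑ y, ψ (β * (σ x * y) + γ * (x * σ y) + δ * (σ x * y ^ 2) +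
          ε * (x ^ 2 * σ y)) * (f x * g y)) =
          ∑ x, ∑ y, ψ (γ * (σ x * y) + β * (x * σ y) + ε * (σ x * y ^ 2) +
          δ * (x ^ 2 * σ y)) * (g x * f y) := by
        rw [Finset.sum_comm]
        refine Finset.sum_congr rfl fun x _ => Finset.sum_congr rfl fun y _ => ?_
        have e1 : β * (σ y * x) + γ * (y * σ x) + δ * (σ y * x ^ 2) + ε * (y ^ 2 * σ x) =
            γ * (σ x * y) + β * (x * σ y) + ε * (σ x * y ^ 2) + δ * (x ^ 2 * σ y) := by
          ring
        rw [e1, mul_comm (f y) (g x)]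
      rw [e, mul_comm (∑ x, ‖f x‖ ^ 2)]
      exact key
  · exact hNRD F σ ψ h1 h2 h3 h4 β γ δ ε hδ f g

end Pool.Agent.G9.H19
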